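import Mathlib

open Set ENNReal NNReal

namespace Pool.Agent.Results.MP_ca3f0d_an.No

/-- Lattice points on the `k`-sphere of radius `r`. -/
def sph (d k : ℕ) (r : ℝ) : Set (Fin d → ℤ) := {m | ∑ i, |(m i : ℝ)| ^ k = r ^ k}

/-- Admissible radii. -/
def radii (d k : ℕ) : Set ℝ := {r | 0 < r ∧ (∃ n : ℕ, r ^ k = n) ∧ (sph d k r).Nonempty}

/-- The `k`-spherical average. -/
noncomputable def avg (d k : ℕ) (r : ℝ) (f : (Fin d → ℤ) → ℂ) (x : Fin d → ℤ) : ℂ :=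
  (∑ᶠ m ∈ sph d k r, f (x - m)) / (sph d k r).ncard

/-- The `k`-spherical maximal function. -/
noncomputable def maxf (d k : ℕ) (f : (Fin d → ℤ) → ℂ) (x : Fin d → ℤ) : ℝ≥0∞ :=
  ⨆ r ∈ radii d k, ‖avg d k r f x‖ₑ

lemma odd_pow {x : ℤ} (hx : Odd x) (m : ℕ) : (2 : ℤ) ^ (m + 3) ∣ x ^ 2 ^ (m + 1) - 1 := by
  induction m with
  | zero =>
    obtain ⟨k, rfl⟩ := hx
    obtain ⟨c, hc⟩ := Int.even_mul_succ_self k
    exact ⟨c, by linear_combination 4 * hc⟩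
  | succ m ih =>
    rw [pow_succ 2 (m + 1), pow_mul, show ∀ y : ℤ, y ^ 2 - 1 = (y + 1) * (y - 1) from
      fun y => by ring, pow_succ' (2 : ℤ)]
    exact mul_dvd_mul (hx.pow.add_one).two_dvd ih

lemma desc {d s : ℕ} (hd : d < 4 * 2 ^ (s + 2)) (j : ℕ) (m : Fin d → ℤ)
    (h : ∑ i, m i ^ 2 ^ (s + 2) = (2 ^ j) ^ 2 ^ (s + 2)) :
    ∃ u : Fin d → ℤ, (∀ i, u i ∈ Finset.Icc (-1) 1) ∧ m = (2 : ℤ) ^ j • u := by
  have hk : Even (2 ^ (s + 2)) := by simp [Nat.even_pow]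
  have h2 : s + 4 ≤ 2 ^ (s + 2) := by
    have := s.lt_two_pow_self
    rw [pow_add]; omega
  induction j generalizing m with
  | zero =>
    refine ⟨m, fun i => Finset.mem_Icc.2 (abs_le.1 ?_), by simp⟩
    have := Finset.single_le_sum (f := fun i => m i ^ 2 ^ (s + 2)) (fun i _ => hk.pow_nonneg _)
      (Finset.mem_univ i)
    rw [h, pow_zero, one_pow, ← hk.pow_abs] at this
    exact (pow_le_one_iff_of_nonneg (abs_nonneg _) (by positivity)).1 this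
  | succ j ih =>
    have h3 : ∀ x : ℤ, Even x → (2 : ℤ) ^ (s + 4) ∣ x ^ 2 ^ (s + 2) := fun x hx =>
      (pow_dvd_pow _ h2).trans (pow_dvd_pow_of_dvd hx.two_dvd _)
    have h4 : (2 : ℤ) ^ (s + 4) ∣ ∑ i, (m i ^ 2 ^ (s + 2) - if Odd (m i) then 1 else 0) :=
      Finset.dvd_sum fun i _ => by
        split_ifs with e
        · exact odd_pow e (s + 1)
        · rw [sub_zero]; exact h3 _ (Int.not_odd_iff_even.1 e)
    rw [Finset.sum_sub_distrib, h, dvd_sub_right (h3 _ (by simp [Int.even_pow])), Finset.sum_boole] at h4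
    have h5 := Int.eq_zero_of_dvd_of_nonneg_of_lt (by positivity) (by
      have := (Finset.card_filter_le Finset.univ fun i => Odd (m i)).trans_lt
        (by simpa using hd : Finset.univ.card < 4 * 2 ^ (s + 2))
      exact_mod_cast this.trans_eq (by ring)) h4
    have h6 : ∀ i, ∃ c, m i = 2 * c := fun i => (Int.not_odd_iff_even.1 fun e =>
      (Finset.card_eq_zero.1 (by exact_mod_cast h5) ▸ Finset.mem_filter.2 ⟨Finset.mem_univ i, e⟩ :
        i ∈ (∅ : Finset _)) |> Finset.notMem_empty i).two_dvd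
    choose c hc using h6
    obtain ⟨u, h7, h8⟩ := ih c (by
      simp only [hc, mul_pow, ← Finset.mul_sum, pow_succ' (2 : ℤ) j] at h
      exact mul_left_cancel₀ (by positivity) h)
    exact ⟨u, h7, funext fun i => by rw [hc, h8]; simp [pow_succ', mul_assoc]⟩

theorem result (k d : ℕ) (hk : ∃ s, 2 ≤ s ∧ k = 2 ^ s) (h1 : 2 * k < d) (h2 : d < 4 * k) :
    ¬ ∃ C : ℝ≥0, ∀ f : (Fin d → ℤ) → ℂ, Memℓp f 2 →
      (∑' x, maxf d k f x ^ 2) ^ (1 / 2 : ℝ) ≤ C * (∑' x, ‖f x‖ₑ ^ 2) ^ (1 / 2 : ℝ) := by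
  obtain ⟨s, hs, rfl⟩ := hk
  obtain ⟨s, rfl⟩ := Nat.exists_eq_add_of_le' hs
  have hk : Even (2 ^ (s + 2)) := by simp [Nat.even_pow]
  rintro ⟨C, hC⟩
  have hd : 0 < d := by omega
  let U := Fintype.piFinset fun _ : Fin d => Finset.Icc (-1 : ℤ) 1
  let e : ℕ → Fin d → ℤ := fun j => Pi.single ⟨0, hd⟩ (2 ^ j)
  have h3 : ∀ j, e j ∈ sph d (2 ^ (s + 2)) (2 ^ j) := fun j => by
    show ∑ i, _ = _
    rw [Finset.sum_eq_single ⟨0, hd⟩ (fun i _ hi => by simp [e, hi]) (by simp)]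
    simp [e]
  have h4 : ∀ j : ℕ, sph d (2 ^ (s + 2)) (2 ^ j) ⊆ ((2 : ℤ) ^ j • ·) '' U := fun j m hm => by
    obtain ⟨u, h5, h6⟩ := desc h2 j m (by
      have : ∑ i, |(m i : ℝ)| ^ _ = _ := hm
      simp only [hk.pow_abs] at this
      exact_mod_cast this)
    exact ⟨u, Fintype.mem_piFinset.2 h5, h6.symm⟩
  have h5 : ∀ j, ((U.card : ℝ≥0∞))⁻¹ ≤ maxf d (2 ^ (s + 2)) (Pi.single 0 1) (e j) := fun j => by
    refine le_iSup₂_of_le (2 ^ j) ⟨by positivity, ⟨(2 ^ j) ^ 2 ^ (s + 2), by simp⟩, _, h3 j⟩ ?_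
    have hf := (U.finite_toSet.image _).subset (h4 j)
    rw [avg, finsum_mem_eq_finite_toFinset_sum _ hf, Finset.sum_eq_single_of_mem (e j)
      (hf.mem_toFinset.2 (h3 j)) fun m _ hm => Pi.single_eq_of_ne (sub_ne_zero.2 hm.symm) _,
      sub_self, Pi.single_eq_same, one_div, enorm_inv (Nat.cast_ne_zero.2
        (ncard_ne_zero_of_mem (h3 j) hf)), ENNReal.inv_le_inv]
    have := (ncard_le_ncard (h4 j) (U.finite_toSet.image _)).trans (ncard_image_le U.finite_toSet)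
    rw [ncard_coe_finset] at this
    rw [← ofReal_norm, Complex.norm_natCast, ofReal_natCast]
    exact_mod_cast this
  have h6 : ∑' x, maxf d (2 ^ (s + 2)) (Pi.single 0 1) x ^ 2 = ⊤ := top_unique <|
    (tsum_const_eq_top_of_ne_zero (α := ℕ) (pow_ne_zero 2 (ENNReal.inv_ne_zero.2
      (natCast_ne_top U.card)))).ge.trans <| (ENNReal.tsum_le_tsum fun j => by
        gcongr; exact h5 j).trans (tsum_comp_le_tsum_of_injective (f := e) (fun a b h => by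
          simpa [e] using congrFun h ⟨0, hd⟩) _)
  have := hC (Pi.single 0 1) (lp.single (E := fun _ : Fin d → ℤ => ℂ) 2 0 1).2
  rw [h6, tsum_eq_single 0 fun x hx => by simp [hx]] at this
  simp at this

end Pool.Agent.Results.MP_ca3f0d_an.No
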